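import Pool.Agent.helper95.T6.SpecE
import Pool.Agent.helper14.T5.CPS

set_option autoImplicit false

namespace Pool.Agent.T6

open Finset Pool.Agent.helper3.FT Pool.Agent.T5

theorem EPC_prod (e : ℕ) : 0 < ∏ p ∈ e.primeFactors, (1 - 1 / (p : ℝ) ^ 2) ∧
    ∏ p ∈ e.primeFactors, (1 - 1 / (p : ℝ) ^ 2) ≤ 1 := by
  have h : ∀ p ∈ e.primeFactors, 0 < 1 - 1 / (p : ℝ) ^ 2 ∧ 1 - 1 / (p : ℝ) ^ 2 ≤ 1 := by
    intro p hp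
    have h2 : (2 : ℝ) ≤ p := by exact_mod_cast (Nat.prime_of_mem_primeFactors hp).two_le
    have h4 : (4 : ℝ) ≤ (p : ℝ) ^ 2 := by nlinarith
    have h5 : 1 / (p : ℝ) ^ 2 < 1 := by
      rw [div_lt_one (by linarith)]
      linarith
    have h6 : 0 ≤ 1 / (p : ℝ) ^ 2 := by positivity
    constructor <;> linarith
  exact ⟨Finset.prod_pos fun p hp => (h p hp).1, Finset.prod_le_one (fun p hp => (h p hp).1.le) fun p hp => (h p hp).2⟩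

theorem EPC : EPC_stmt := by
  classical
  obtain ⟨K₀, hK⟩ : ∃ K₀ : ℝ, K₀ = ((((49 / 100 : ℝ)) ^ 2)⁻¹ - ((1 / 2 : ℝ) ^ 2)⁻¹) / 2 *
    Real.log ((17 / 100 : ℝ) / (16 / 100)) * (6 / Real.pi ^ 2) := ⟨_, rfl⟩
  have hK₀ : 0 < K₀ := by
    rw [hK]
    have h1 : 0 < Real.log ((17 / 100 : ℝ) / (16 / 100)) := Real.log_pos (by norm_num)
    have h2 : (0 : ℝ) < ((((49 / 100 : ℝ)) ^ 2)⁻¹ - ((1 / 2 : ℝ) ^ 2)⁻¹) / 2 := by norm_num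
    have h3 : (0 : ℝ) < 6 / Real.pi ^ 2 := by
      have := Real.pi_pos
      positivity
    exact mul_pos (mul_pos h2 h1) h3
  refine ⟨K₀ / 2 * ((49 / 100) ^ 3 * (16 / 100)), by positivity, fun e he => ?_⟩
  have he0 : (0 : ℝ) < e := by exact_mod_cast he
  obtain ⟨X₀, hX₀⟩ := CPS (49 / 100) (1 / 2) (16 / 100) (17 / 100) e 1 1 (by norm_num) (by norm_num) (by norm_num)
    (by norm_num) he
    (fun p hp _ h => hp.one_lt.ne' (by exact_mod_cast Int.eq_one_of_dvd_one (by positivity) h.1))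
    (K₀ / 2 / (e : ℝ) ^ 2) (by positivity)
  refine ⟨max X₀ 1, fun X₁ X₂ h1 h2 W hW => ?_⟩
  have hx1 : 1 ≤ X₁ := (le_max_right _ _).trans h1
  have hx2 : 1 ≤ X₂ := (le_max_right _ _).trans h2
  set W' : Finset (ℕ × ℕ) := ((range (⌊1 / 2 * X₁⌋₊ + 1)) ×ˢ (range (⌊17 / 100 * X₂⌋₊ + 1))).filter
    (fun p => 49 / 100 * X₁ < p.1 ∧ (p.1 : ℝ) ≤ 1 / 2 * X₁ ∧ 16 / 100 * X₂ < p.2 ∧ (p.2 : ℝ) ≤ 17 / 100 * X₂ ∧
      Nat.Coprime p.1 p.2 ∧ (e : ℤ) ∣ (p.1 : ℤ) - 1 ∧ (e : ℤ) ∣ (p.2 : ℤ) - 1) with hW'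
  have hmem : ∀ p, p ∈ W' ↔ (49 / 100 * X₁ < p.1 ∧ (p.1 : ℝ) ≤ 1 / 2 * X₁ ∧
      16 / 100 * X₂ < p.2 ∧ (p.2 : ℝ) ≤ 17 / 100 * X₂ ∧ Nat.Coprime p.1 p.2 ∧ (e : ℤ) ∣ (p.1 : ℤ) - 1 ∧
      (e : ℤ) ∣ (p.2 : ℤ) - 1) := by
    intro p
    rw [hW', Finset.mem_filter, Finset.mem_product, Finset.mem_range, Finset.mem_range]
    constructor
    · exact fun h => h.2
    · intro h
      exact ⟨⟨Nat.lt_succ_of_le (Nat.le_floor h.2.1), Nat.lt_succ_of_le (Nat.le_floor h.2.2.2.1)⟩, h⟩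
  have hsub : W' ⊆ W := by
    intro p hp
    obtain ⟨a1, a2, a3, a4, a5, a6, a7⟩ := (hmem p).1 hp
    exact hW p.1 p.2 a1 a2 a3 a4 a5 a6 a7
  have hmain := hX₀ X₁ X₂ ((le_max_left _ _).trans h1) ((le_max_left _ _).trans h2) W' hmem
  obtain ⟨hp0, hp1⟩ := EPC_prod e
  have hM : K₀ / (e : ℝ) ^ 2 ≤ ((((49 / 100 : ℝ)) ^ 2)⁻¹ - ((1 / 2 : ℝ) ^ 2)⁻¹) / 2 *
      Real.log ((17 / 100 : ℝ) / (16 / 100)) * (6 / Real.pi ^ 2) /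
        ((∏ p ∈ e.primeFactors, (1 - 1 / (p : ℝ) ^ 2)) * (e : ℝ) ^ 2) := by
    rw [← hK]
    apply div_le_div_of_nonneg_left hK₀.le (by positivity)
    have : 0 < (e : ℝ) ^ 2 := by positivity
    nlinarith
  have hlow : K₀ / 2 / (e : ℝ) ^ 2 ≤ X₁ ^ 2 * ∑ p ∈ W', 1 / ((p.1 : ℝ) ^ 3 * p.2) := by
    have h3 := (abs_le.1 hmain).1
    have h4 : K₀ / (e : ℝ) ^ 2 = K₀ / 2 / (e : ℝ) ^ 2 + K₀ / 2 / (e : ℝ) ^ 2 := by ring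
    linarith
  have hup : ∑ p ∈ W', 1 / ((p.1 : ℝ) ^ 3 * p.2) ≤ W'.card • (1 / ((49 / 100 * X₁) ^ 3 * (16 / 100 * X₂))) := by
    refine Finset.sum_le_card_nsmul _ _ _ fun p hp => ?_
    obtain ⟨a1, -, a3, -⟩ := (hmem p).1 hp
    apply one_div_le_one_div_of_le (by positivity)
    apply mul_le_mul _ a3.le (by positivity) (by positivity)
    exact pow_le_pow_left₀ (by positivity) a1.le 3
  rw [nsmul_eq_mul] at hup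
  have hcard : (W'.card : ℝ) ≤ W.card := by exact_mod_cast Finset.card_le_card hsub
  have h5 : K₀ / 2 / (e : ℝ) ^ 2 ≤ X₁ ^ 2 * ((W'.card : ℝ) * (1 / ((49 / 100 * X₁) ^ 3 * (16 / 100 * X₂)))) :=
    hlow.trans (mul_le_mul_of_nonneg_left hup (by positivity))
  have hX1 : 0 < X₁ := by linarith
  have hX2 : 0 < X₂ := by linarith
  have h6 : X₁ ^ 2 * ((W'.card : ℝ) * (1 / ((49 / 100 * X₁) ^ 3 * (16 / 100 * X₂)))) =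
      (W'.card : ℝ) / ((49 / 100) ^ 3 * (16 / 100) * (X₁ * X₂)) := by
    field_simp
  rw [h6, le_div_iff₀ (by positivity)] at h5
  calc K₀ / 2 * ((49 / 100) ^ 3 * (16 / 100)) / (e : ℝ) ^ 2 * (X₁ * X₂)
      = K₀ / 2 / (e : ℝ) ^ 2 * ((49 / 100) ^ 3 * (16 / 100) * (X₁ * X₂)) := by ring
    _ ≤ (W'.card : ℝ) := h5
    _ ≤ W.card := hcard

end Pool.Agent.T6
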